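import Pool.Agent.H43.PS.H91.EHA.SwK1
import Pool.Agent.H43.PS.M04

/-!
# LM SwA: the Möbius function in residue classes prime to the modulus

Proof (copy and adapt `Pool.Agent.H76.MU.pn_l`, file `H76/MU/PnL.lean`, complete: there `lio`, `c = 1`).  Fix `A, B`, `c ≤ L^B`, `L = log x`.  For `(r, c) = 1` let `M_r(y) = ∑_{n ≤ y, n ≡ r (c)} mu n`; `|M_r(y)| ≤ y/c + 1`.
Identities: `mu n · log n = - ∑_{d ∣ n} Λ(d) mu(n/d)` (Mathlib: `ArithmeticFunction.log`, `vonMangoldt`, e.g. from `∑_{d | n} Λ(d) = log n` and `μ * ζ = 1`: `μ log = -(Λ * μ)`), and for `(r,c) = 1`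
`∑_{d ≤ y, (d,c)=1} M_{r/d}(y/d) = ∑_{n ≤ y, n ≡ r} ∑_{m ∣ n} mu m = [1 ≤ y and 1 ≡ r]` (in the sum over `n = d m ≡ r` automatically `(d,c) = (m,c) = 1`).
`x` large, `w = ⌈exp(√L)⌉₊`, CLAIM(i), `i ≤ I = 2(A+B) + 6`: for all `r` prime to `c` and `x^{1/2} w^{2i} ≤ y ≤ x`: `|M_r(y)| ≤ δ_i y`, `δ_0 = 1`, `δ_{i+1} = ρ δ_i + L^{-A-2}`, `ρ = C0 L^B L^{-1/2}`?? -- NO loss of `c` is allowed: normalise `|M_r(y)| ≤ δ_i y/c + 1`
in the sum over `d ≤ w`: `∑_{d ≤ w} (Λ(d) + c/φ(c)) (δ_i y/(d c) + 1)`, `c/φ(c) ≤ C log L`: so `ρ = C0 L^{-1/2} log L ≤ L^{-1/4}` and `δ_{i+1} = L^{-1/4} δ_i + L^{-A-2}` with `I = 4 (A + 2)`; everything is multiplied by `c` where needed (`w c ≤ y^{1/4}`, `c ≤ L^B`).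
Step:  `∑_{n ≤ y, n ≡ r} mu n log n = - ∑_{d ≤ y, (d,c)=1} Λ(d) M_{r/d}(y/d) = -(c/φ(c)) [..] - ∑_{d ≤ y, (d,c)=1} (Λ(d) - c/φ(c)) M_{r/d}(y/d)`.
`d > w`: interchange, `∑_{m ≤ y/w, (m,c)=1} mu m · (R(y/m) - R(w))`, `R(v) = ∑_{d ≤ v, d ≡ r/m (c)} (Λ(d) - c/φ(c))`, `|R(v)| ≤ v/(log v)^{K} + ..` by the prime number theorem in progressions for `c ≤ (log w)^{2B}` (module `H91/EHA/SwK1.lean`: `psiA`; see the final theorem there) and
`#{d ≤ v, d ≡ a (c)} = v/c + O(1)`.  `M_r(y) log y = ∑ mu n log n + ∑ mu n log(y/n)`, the last sum is `∫_1^y M_r(u)/u du`.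
(It is enough to prove some version `|M_r(y)| ≤ x/L^A`; the constant powers of `c` and `log` are free: if a power of `c` is lost in a step, use instead the normalisation by `c` above.)
-/

set_option autoImplicit false

namespace Pool.Agent.H43.LM

open Finset
open Pool.Agent.H91.EHA (Lam psiA)
open Pool.Agent.H76.MU (log_ge)

/-- reordering of pairs -/
private theorem SwA_pairs (y : ℕ) (f : ℕ → ℕ → ℝ) :
    ∑ n ∈ Icc 1 y, ∑ d ∈ n.divisors, f d (n / d)
      = ∑ d ∈ Icc 1 y, ∑ m ∈ Icc 1 (y / d), f d m := by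
  rw [Finset.sum_sigma', Finset.sum_sigma']
  refine Finset.sum_bij' (fun a _ => ⟨a.2, a.1 / a.2⟩) (fun b _ => ⟨b.1 * b.2, b.1⟩) ?_ ?_ ?_ ?_ ?_
  · rintro ⟨n, d⟩ h
    simp only [Finset.mem_sigma, Finset.mem_Icc, Nat.mem_divisors] at h ⊢
    obtain ⟨⟨h1, h2⟩, h3, h4⟩ := h
    have hd : 0 < d := Nat.pos_of_dvd_of_pos h3 (by omega)
    refine ⟨⟨hd, (Nat.le_of_dvd (by omega) h3).trans h2⟩, Nat.div_pos (Nat.le_of_dvd (by omega) h3) hd,
      Nat.div_le_div_right h2⟩
  · rintro ⟨d, m⟩ h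
    simp only [Finset.mem_sigma, Finset.mem_Icc, Nat.mem_divisors] at h ⊢
    obtain ⟨⟨h1, h2⟩, h3, h4⟩ := h
    have h5 : d * m ≤ y := by
      calc d * m ≤ d * (y / d) := Nat.mul_le_mul_left _ h4
        _ ≤ y := Nat.mul_div_le y d
    refine ⟨⟨Nat.mul_pos (by omega) (by omega), h5⟩, Dvd.intro _ rfl, ?_⟩
    exact (Nat.mul_pos (by omega) (by omega)).ne'
  · rintro ⟨n, d⟩ h
    simp only [Finset.mem_sigma, Finset.mem_Icc, Nat.mem_divisors] at h
    obtain ⟨⟨h1, h2⟩, h3, h4⟩ := h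
    simp only [Sigma.mk.injEq, heq_eq_eq, and_true]
    exact Nat.mul_div_cancel' h3
  · rintro ⟨d, m⟩ h
    simp only [Finset.mem_sigma, Finset.mem_Icc] at h
    obtain ⟨⟨h1, h2⟩, h3, h4⟩ := h
    simp only [Sigma.mk.injEq, heq_eq_eq, true_and]
    exact Nat.mul_div_cancel_left m (by omega)
  · rintro ⟨n, d⟩ h
    rfl

/-- `μ log = - Λ * μ` -/
private theorem SwA_mu_log (n : ℕ) : mu n * Real.log n = - ∑ d ∈ n.divisors, Lam d * mu (n / d) := by
  have h2 : ArithmeticFunction.pmul ((ArithmeticFunction.moebius : ArithmeticFunction ℤ) : ArithmeticFunction ℝ)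
      ArithmeticFunction.log * ((ArithmeticFunction.zeta : ArithmeticFunction ℕ) : ArithmeticFunction ℝ) = - ArithmeticFunction.vonMangoldt := by
    ext n
    rw [ArithmeticFunction.coe_mul_zeta_apply]
    have h := ArithmeticFunction.sum_moebius_mul_log_eq (n := n)
    simpa [ArithmeticFunction.pmul_apply, ArithmeticFunction.intCoe_apply, ArithmeticFunction.log_apply] using h
  have h1 : ArithmeticFunction.pmul ((ArithmeticFunction.moebius : ArithmeticFunction ℤ) : ArithmeticFunction ℝ)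
      ArithmeticFunction.log = - (ArithmeticFunction.vonMangoldt *
        ((ArithmeticFunction.moebius : ArithmeticFunction ℤ) : ArithmeticFunction ℝ)) := by
    calc ArithmeticFunction.pmul ((ArithmeticFunction.moebius : ArithmeticFunction ℤ) : ArithmeticFunction ℝ)
          ArithmeticFunction.log
        = ArithmeticFunction.pmul ((ArithmeticFunction.moebius : ArithmeticFunction ℤ) : ArithmeticFunction ℝ)
          ArithmeticFunction.log * (((ArithmeticFunction.zeta : ArithmeticFunction ℕ) : ArithmeticFunction ℝ) *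
            ((ArithmeticFunction.moebius : ArithmeticFunction ℤ) : ArithmeticFunction ℝ)) := by
          rw [ArithmeticFunction.coe_zeta_mul_coe_moebius, mul_one]
      _ = - (ArithmeticFunction.vonMangoldt *
        ((ArithmeticFunction.moebius : ArithmeticFunction ℤ) : ArithmeticFunction ℝ)) := by
          rw [← mul_assoc, h2, neg_mul]
  have h3 := DFunLike.congr_fun h1 n
  have h4 : (ArithmeticFunction.vonMangoldt * ((ArithmeticFunction.moebius : ArithmeticFunction ℤ) : ArithmeticFunction ℝ)) n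
      = ∑ d ∈ n.divisors, Lam d * mu (n / d) := by
    rw [ArithmeticFunction.mul_apply, Nat.sum_divisorsAntidiagonal
      (fun i j => ArithmeticFunction.vonMangoldt i * ((ArithmeticFunction.moebius : ArithmeticFunction ℤ) : ArithmeticFunction ℝ) j)]
    refine Finset.sum_congr rfl fun d _ => ?_
    rfl
  have h5 : (ArithmeticFunction.pmul ((ArithmeticFunction.moebius : ArithmeticFunction ℤ) : ArithmeticFunction ℝ)
      ArithmeticFunction.log) n = mu n * Real.log n := rfl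
  have h6 : (- (ArithmeticFunction.vonMangoldt * ((ArithmeticFunction.moebius : ArithmeticFunction ℤ) : ArithmeticFunction ℝ))) n
      = - ((ArithmeticFunction.vonMangoldt * ((ArithmeticFunction.moebius : ArithmeticFunction ℤ) : ArithmeticFunction ℝ)) n) := rfl
  rw [← h5, h3, h6, h4]

private theorem SwA_mu_sum (n : ℕ) : ∑ d ∈ n.divisors, mu (n / d) = if n = 1 then 1 else 0 := by
  rw [Nat.sum_div_divisors n (fun m => mu m)]
  have h := DFunLike.congr_fun (ArithmeticFunction.coe_moebius_mul_coe_zeta (R := ℝ)) n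
  rw [ArithmeticFunction.coe_mul_zeta_apply, ArithmeticFunction.one_apply] at h
  exact h

/-- the sum of `mu m` over the `m ≤ y` with `d m = a` in `ℤ / c` -/
private noncomputable def SwAP (c : ℕ) (a : ZMod c) (d y : ℕ) : ℝ :=
  ∑ m ∈ Icc 1 y, if (d : ZMod c) * (m : ZMod c) = a then mu m else 0

private theorem SwA_P_one (c : ℕ) (a : ZMod c) (y : ℕ) :
    SwAP c a 1 y = ∑ n ∈ Icc 1 y, if (n : ZMod c) = a then mu n else 0 := by
  unfold SwAP
  simp only [Nat.cast_one, one_mul]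

private theorem SwA_P_abs (c : ℕ) (a : ZMod c) (d y : ℕ) : |SwAP c a d y| ≤ y := by
  unfold SwAP
  refine (Finset.abs_sum_le_sum_abs _ _).trans ?_
  refine (Finset.sum_le_sum (g := fun _ => (1 : ℝ)) fun n _ => ?_).trans ?_
  · split_ifs
    · exact mu_abs_le n
    · simp
  · simp

/-- the sum for `d` is the sum for another class, or zero -/
private theorem SwA_transfer {c : ℕ} {a : ZMod c} (ha : IsUnit a) (d y : ℕ) :
    SwAP c a d y = 0 ∨ ∃ b : ZMod c, IsUnit b ∧ SwAP c a d y = SwAP c b 1 y := by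
  by_cases hd : IsUnit (d : ZMod c)
  · right
    refine ⟨(d : ZMod c)⁻¹ * a, ?_, ?_⟩
    · refine IsUnit.mul ?_ ha
      obtain ⟨u, hu⟩ := hd
      rw [← hu, ZMod.inv_coe_unit]
      exact u⁻¹.isUnit
    · have h1 := ZMod.mul_inv_of_unit _ hd
      unfold SwAP
      refine Finset.sum_congr rfl fun m _ => ?_
      have h2 : ((d : ZMod c) * (m : ZMod c) = a) ↔ (((1 : ℕ) : ZMod c) * (m : ZMod c) = (d : ZMod c)⁻¹ * a) := by
        rw [Nat.cast_one, one_mul]
        constructor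
        · intro h
          rw [← h, ← mul_assoc, mul_comm (d : ZMod c)⁻¹, h1, one_mul]
        · intro h
          rw [h, ← mul_assoc, h1, one_mul]
      simp only [h2]
  · left
    unfold SwAP
    refine Finset.sum_eq_zero fun m _ => ?_
    rw [if_neg]
    intro h
    apply hd
    rw [← h] at ha
    exact isUnit_of_mul_isUnit_left ha

/-- the convolution identity in the class `a` -/
private theorem SwA_conv (c : ℕ) (a : ZMod c) (y : ℕ) (f : ℕ → ℝ) :
    ∑ n ∈ Icc 1 y, (if (n : ZMod c) = a then ∑ d ∈ n.divisors, f d * mu (n / d) else 0)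
      = ∑ d ∈ Icc 1 y, f d * SwAP c a d (y / d) := by
  have h1 : ∑ d ∈ Icc 1 y, f d * SwAP c a d (y / d)
      = ∑ d ∈ Icc 1 y, ∑ m ∈ Icc 1 (y / d), (if (d : ZMod c) * (m : ZMod c) = a then f d * mu m else 0) := by
    refine Finset.sum_congr rfl fun d _ => ?_
    unfold SwAP
    rw [Finset.mul_sum]
    refine Finset.sum_congr rfl fun m _ => ?_
    split_ifs <;> simp
  rw [h1, ← SwA_pairs y (fun d m => if (d : ZMod c) * (m : ZMod c) = a then f d * mu m else 0)]
  refine Finset.sum_congr rfl fun n _ => ?_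
  split_ifs with h
  · refine Finset.sum_congr rfl fun d hd => ?_
    have h2 : d * (n / d) = n := Nat.mul_div_cancel' (Nat.dvd_of_mem_divisors hd)
    have h3 : (d : ZMod c) * ((n / d : ℕ) : ZMod c) = a := by
      rw [← Nat.cast_mul, h2, h]
    simp only [h3, if_true]
  · symm
    refine Finset.sum_eq_zero fun d hd => ?_
    have h2 : d * (n / d) = n := Nat.mul_div_cancel' (Nat.dvd_of_mem_divisors hd)
    have h3 : ¬ (d : ZMod c) * ((n / d : ℕ) : ZMod c) = a := by
      rw [← Nat.cast_mul, h2]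
      exact h
    simp only [h3, if_false]

private theorem SwA_log (c : ℕ) (a : ZMod c) (y : ℕ) :
    ∑ n ∈ Icc 1 y, (if (n : ZMod c) = a then mu n else 0) * Real.log n
      = - ∑ d ∈ Icc 1 y, Lam d * SwAP c a d (y / d) := by
  rw [← SwA_conv, ← Finset.sum_neg_distrib]
  refine Finset.sum_congr rfl fun n _ => ?_
  split_ifs
  · exact SwA_mu_log n
  · simp

private theorem SwA_sumA (c : ℕ) (a : ZMod c) (y : ℕ) : |∑ d ∈ Icc 1 y, SwAP c a d (y / d)| ≤ 1 := by
  have h1 := SwA_conv c a y (fun _ => 1)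
  simp only [one_mul] at h1
  rw [← h1]
  have h2 : ∑ n ∈ Icc 1 y, (if (n : ZMod c) = a then ∑ d ∈ n.divisors, mu (n / d) else 0)
      = ∑ n ∈ Icc 1 y, if n = 1 then (if (n : ZMod c) = a then 1 else 0) else 0 := by
    refine Finset.sum_congr rfl fun n _ => ?_
    rw [SwA_mu_sum]
    split_ifs <;> rfl
  rw [h2, Finset.sum_ite_eq']
  split_ifs <;> simp

/-- interchange in the range `d > w` -/
private theorem SwA_inter (c : ℕ) (a : ZMod c) (y w : ℕ) (f : ℕ → ℝ) :
    ∑ d ∈ (Icc 1 y).filter (fun d => w < d), f d * SwAP c a d (y / d)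
      = ∑ m ∈ Icc 1 y, mu m * ∑ d ∈ Ioc w (y / m), (if (d : ZMod c) * (m : ZMod c) = a then f d else 0) := by
  set F : ℕ → ℕ → ℝ := fun d m => if (d : ZMod c) * (m : ZMod c) = a then (if w < d then f d else 0) * mu m else 0 with hF
  have h1 : ∑ d ∈ (Icc 1 y).filter (fun d => w < d), f d * SwAP c a d (y / d)
      = ∑ d ∈ Icc 1 y, ∑ m ∈ Icc 1 (y / d), F d m := by
    rw [Finset.sum_filter]
    refine Finset.sum_congr rfl fun d _ => ?_
    unfold SwAP
    split_ifs with h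
    · rw [Finset.mul_sum]
      refine Finset.sum_congr rfl fun m _ => ?_
      simp only [hF, if_pos h]
      split_ifs <;> simp
    · symm
      refine Finset.sum_eq_zero fun m _ => ?_
      simp only [hF, if_neg h]
      split_ifs <;> simp
  have h2 : ∑ m ∈ Icc 1 y, mu m * ∑ d ∈ Ioc w (y / m), (if (d : ZMod c) * (m : ZMod c) = a then f d else 0)
      = ∑ m ∈ Icc 1 y, ∑ d ∈ Icc 1 (y / m), F d m := by
    refine Finset.sum_congr rfl fun m _ => ?_
    have h3 : ∑ d ∈ Ioc w (y / m), (if (d : ZMod c) * (m : ZMod c) = a then f d else 0)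
        = ∑ d ∈ Icc 1 (y / m), if w < d then (if (d : ZMod c) * (m : ZMod c) = a then f d else 0) else 0 := by
      have e0 : Ioc w (y / m) = (Icc 1 (y / m)).filter (fun d => w < d) := by
        ext d
        simp only [Finset.mem_Ioc, Finset.mem_filter, Finset.mem_Icc]
        omega
      rw [e0, Finset.sum_filter]
    rw [h3, Finset.mul_sum]
    refine Finset.sum_congr rfl fun d _ => ?_
    simp only [hF]
    split_ifs <;> ring
  rw [h1, h2, ← SwA_pairs y (fun d m => F d m), ← SwA_pairs y (fun m d => F d m)]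
  refine Finset.sum_congr rfl fun n hn => ?_
  have h4 := Nat.sum_divisorsAntidiagonal (n := n) (fun d m => F d m)
  have h5 := Nat.sum_divisorsAntidiagonal' (n := n) (fun d m => F d m)
  rw [← h4, h5]

/-! ### analysis -/

private noncomputable def SwAq (y : ℕ) : ℝ := Real.sqrt (Real.sqrt (1 + Real.log y))

private theorem SwA_log_nonneg (y : ℕ) : 0 ≤ Real.log (y : ℝ) := Real.log_natCast_nonneg y

private theorem SwA_q4 (y : ℕ) : SwAq y ^ 4 = 1 + Real.log y := by
  have h := SwA_log_nonneg y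
  unfold SwAq
  have h1 : Real.sqrt (Real.sqrt (1 + Real.log y)) ^ 4
      = (Real.sqrt (Real.sqrt (1 + Real.log y)) ^ 2) ^ 2 := by ring
  rw [h1, Real.sq_sqrt (Real.sqrt_nonneg _), Real.sq_sqrt (by linarith)]

private theorem SwA_q_one (y : ℕ) : 1 ≤ SwAq y := by
  have h := SwA_log_nonneg y
  unfold SwAq
  rw [Real.one_le_sqrt, Real.one_le_sqrt]
  linarith

private theorem SwA_q_pos (y : ℕ) : 0 < SwAq y := lt_of_lt_of_le one_pos (SwA_q_one y)

private theorem SwA_logpow (j : ℕ) (s : ℝ) (hs : 0 < s) : ∃ C : ℝ, 0 < C ∧ ∀ t : ℝ, 1 ≤ t →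
    (1 + Real.log t) ^ j ≤ C * t ^ s := by
  rcases Nat.eq_zero_or_pos j with rfl | hj
  · refine ⟨1, one_pos, fun t ht => ?_⟩
    simpa using Real.one_le_rpow ht hs.le
  have hj' : (0 : ℝ) < j := by exact_mod_cast hj
  set e : ℝ := s / j with he
  have he0 : 0 < e := by rw [he]; positivity
  refine ⟨(1 + 1 / e) ^ j, by positivity, fun t ht => ?_⟩
  have h1 : 1 + Real.log t ≤ (1 + 1 / e) * t ^ e := by
    have h2 := Real.log_le_rpow_div (by linarith only [ht] : (0 : ℝ) ≤ t) he0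
    have h3 := Real.one_le_rpow ht he0.le
    have h4 : (1 + 1 / e) * t ^ e = t ^ e + t ^ e / e := by ring
    linarith only [h2, h3, h4]
  have h5 : 0 ≤ 1 + Real.log t := by
    have := Real.log_nonneg ht
    linarith only [this]
  calc (1 + Real.log t) ^ j ≤ ((1 + 1 / e) * t ^ e) ^ j := pow_le_pow_left₀ h5 h1 j
    _ = (1 + 1 / e) ^ j * t ^ s := by
        rw [mul_pow, ← Real.rpow_natCast (t ^ e) j, ← Real.rpow_mul (by linarith only [ht])]
        congr 2
        rw [he]; field_simp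

private theorem SwA_key (j : ℕ) (s : ℝ) (hs : 0 < s) : ∃ C : ℝ, 0 < C ∧ ∀ (u y : ℕ) (t : ℝ),
    1 ≤ u → 1 ≤ y → 1 ≤ t → (y : ℝ) ≤ u * t → SwAq y ^ j ≤ C * SwAq u ^ j * t ^ s := by
  obtain ⟨C, hC, h⟩ := SwA_logpow j s hs
  refine ⟨C, hC, fun u y t hu hy ht hyt => ?_⟩
  have hu' : (0 : ℝ) < u := by exact_mod_cast hu
  have hy' : (0 : ℝ) < y := by exact_mod_cast hy
  have hlt := Real.log_nonneg ht
  have hlu := SwA_log_nonneg u
  have h1 : Real.log y ≤ Real.log u + Real.log t := by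
    rw [← Real.log_mul hu'.ne' (by positivity)]
    exact Real.log_le_log hy' hyt
  have h2 : SwAq y ^ 4 ≤ (SwAq u * (1 + Real.log t)) ^ 4 := by
    rw [mul_pow, SwA_q4, SwA_q4]
    have h3 : (1 + Real.log t) ≤ (1 + Real.log t) ^ 4 :=
      le_self_pow₀ (by linarith only [hlt]) (by norm_num)
    calc 1 + Real.log y ≤ (1 + Real.log u) * (1 + Real.log t) := by nlinarith only [h1, hlt, hlu]
      _ ≤ (1 + Real.log u) * (1 + Real.log t) ^ 4 :=
          mul_le_mul_of_nonneg_left h3 (by linarith only [hlu])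
  have h4 : SwAq y ≤ SwAq u * (1 + Real.log t) :=
    le_of_pow_le_pow_left₀ (by norm_num) (by have := SwA_q_pos u; positivity) h2
  calc SwAq y ^ j ≤ (SwAq u * (1 + Real.log t)) ^ j := pow_le_pow_left₀ (SwA_q_pos y).le h4 j
    _ = SwAq u ^ j * (1 + Real.log t) ^ j := by rw [mul_pow]
    _ ≤ SwAq u ^ j * (C * t ^ s) :=
        mul_le_mul_of_nonneg_left (h t ht) (pow_nonneg (SwA_q_pos u).le _)
    _ = C * SwAq u ^ j * t ^ s := by ring

private theorem SwA_abel (f : ℕ → ℝ) (y : ℕ) (hy : 1 ≤ y) :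
    ∑ n ∈ Icc 1 y, f n * (Real.log y - Real.log n)
      = ∑ u ∈ Ico 1 y, (∑ n ∈ Icc 1 u, f n) * (Real.log ((u : ℝ) + 1) - Real.log u) := by
  induction y, hy using Nat.le_induction with
  | base => simp
  | succ y hy ih =>
    rw [Finset.sum_Ico_succ_top hy, ← ih, Finset.sum_Icc_succ_top (by omega)]
    push_cast
    rw [sub_self, mul_zero, add_zero]
    rw [Finset.sum_mul, ← Finset.sum_add_distrib]
    refine Finset.sum_congr rfl fun n _ => ?_
    ring

private theorem SwA_inv_sqrt (y : ℕ) : ∑ u ∈ Icc 1 y, (1 : ℝ) / Real.sqrt u ≤ 2 * Real.sqrt y := by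
  induction y with
  | zero => simp
  | succ y ih =>
    rw [Finset.sum_Icc_succ_top (by omega)]
    have h0 : (0 : ℝ) ≤ y := Nat.cast_nonneg y
    have h1 : 0 < Real.sqrt ((y : ℝ) + 1) := Real.sqrt_pos.2 (by linarith only)
    have h2 : Real.sqrt (y : ℝ) ≤ Real.sqrt ((y : ℝ) + 1) := Real.sqrt_le_sqrt (by linarith only)
    have h3 := Real.sqrt_nonneg (y : ℝ)
    have h4 : Real.sqrt ((y : ℝ) + 1) ^ 2 = y + 1 := Real.sq_sqrt (by linarith)
    have h5 : Real.sqrt (y : ℝ) ^ 2 = y := Real.sq_sqrt h0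
    push_cast
    have h6 : 1 / Real.sqrt ((y : ℝ) + 1) ≤ 2 * (Real.sqrt ((y : ℝ) + 1) - Real.sqrt y) := by
      rw [div_le_iff₀ h1]
      nlinarith only [h4, h5, h2]
    linarith only [ih, h6]

private theorem SwA_log_succ (u : ℕ) (hu : 1 ≤ u) :
    |Real.log ((u : ℝ) + 1) - Real.log u| ≤ 1 / u := by
  have hu' : (0 : ℝ) < u := by exact_mod_cast hu
  rw [abs_of_nonneg (sub_nonneg.2 (Real.log_le_log hu' (by linarith only))),
    ← Real.log_div (by positivity) hu'.ne']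
  have h1 := Real.log_le_sub_one_of_pos (show (0 : ℝ) < ((u : ℝ) + 1) / u by positivity)
  refine h1.trans (le_of_eq ?_)
  field_simp
  ring

/-- second term -/
private theorem SwA_T1 (j : ℕ) : ∃ K : ℝ, 0 < K ∧ ∀ (f : ℕ → ℝ) (C : ℝ), 0 < C →
    (∀ y : ℕ, 1 ≤ y → |∑ n ∈ Icc 1 y, f n| ≤ C * y / SwAq y ^ (2 * j)) →
    ∀ y : ℕ, 1 ≤ y → |∑ n ∈ Icc 1 y, f n * (Real.log y - Real.log n)| ≤ K * C * y / SwAq y ^ (2 * j) := by
  obtain ⟨K, hK, hkey⟩ := SwA_key (2 * j) (1 / 2) (by norm_num)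
  refine ⟨2 * K, by positivity, fun f C hC h y hy => ?_⟩
  have hy' : (0 : ℝ) < y := by exact_mod_cast hy
  have hq := pow_pos (SwA_q_pos y) (2 * j)
  rw [SwA_abel f y hy]
  refine (Finset.abs_sum_le_sum_abs _ _).trans ?_
  have h1 : ∀ u ∈ Ico 1 y, |(∑ n ∈ Icc 1 u, f n) * (Real.log ((u : ℝ) + 1) - Real.log u)|
      ≤ (C * K * Real.sqrt y / SwAq y ^ (2 * j)) * (1 / Real.sqrt u) := by
    intro u hu
    obtain ⟨hu1, hu2⟩ := Finset.mem_Ico.1 hu
    have hu' : (0 : ℝ) < u := by exact_mod_cast hu1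
    have hqu := pow_pos (SwA_q_pos u) (2 * j)
    have hsu : 0 < Real.sqrt u := Real.sqrt_pos.2 hu'
    rw [abs_mul]
    have h2 := SwA_log_succ u hu1
    have h3 := h u hu1
    have huy : (u : ℝ) ≤ y := by exact_mod_cast hu2.le
    have h4 := hkey u y (y / u) hu1 hy (by rw [le_div_iff₀ hu']; linarith only [huy])
      (by rw [mul_div_cancel₀ _ hu'.ne'])
    rw [← Real.sqrt_eq_rpow, Real.sqrt_div hy'.le] at h4
    have h5 : 1 / SwAq u ^ (2 * j) ≤ K * (Real.sqrt y / Real.sqrt u) / SwAq y ^ (2 * j) := by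
      rw [div_le_div_iff₀ hqu hq]
      calc 1 * SwAq y ^ (2 * j) ≤ K * SwAq u ^ (2 * j) * (Real.sqrt y / Real.sqrt u) := by
            rw [one_mul]; exact h4
        _ = K * (Real.sqrt y / Real.sqrt u) * SwAq u ^ (2 * j) := by ring
    calc |∑ n ∈ Icc 1 u, f n| * |Real.log ((u : ℝ) + 1) - Real.log u|
        ≤ (C * u / SwAq u ^ (2 * j)) * (1 / u) :=
          mul_le_mul h3 h2 (abs_nonneg _) (by positivity)
      _ = C * (1 / SwAq u ^ (2 * j)) := by field_simp
      _ ≤ C * (K * (Real.sqrt y / Real.sqrt u) / SwAq y ^ (2 * j)) :=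
          mul_le_mul_of_nonneg_left h5 hC.le
      _ = (C * K * Real.sqrt y / SwAq y ^ (2 * j)) * (1 / Real.sqrt u) := by ring
  refine (Finset.sum_le_sum h1).trans ?_
  rw [← Finset.mul_sum]
  have h6 : ∑ u ∈ Ico 1 y, (1 : ℝ) / Real.sqrt u ≤ 2 * Real.sqrt y := by
    refine le_trans (Finset.sum_le_sum_of_subset_of_nonneg ?_ fun _ _ _ => by positivity)
      (SwA_inv_sqrt y)
    intro u hu
    simp only [Finset.mem_Ico, Finset.mem_Icc] at hu ⊢
    omega
  have h7 : 0 ≤ C * K * Real.sqrt y / SwAq y ^ (2 * j) := by positivity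
  refine (mul_le_mul_of_nonneg_left h6 h7).trans (le_of_eq ?_)
  have h8 : Real.sqrt y * Real.sqrt y = y := Real.mul_self_sqrt hy'.le
  calc C * K * Real.sqrt y / SwAq y ^ (2 * j) * (2 * Real.sqrt y)
      = 2 * C * K * (Real.sqrt y * Real.sqrt y) / SwAq y ^ (2 * j) := by ring
    _ = 2 * K * C * y / SwAq y ^ (2 * j) := by rw [h8]; ring

private theorem SwA_harm (w : ℕ) : ∑ d ∈ Icc 1 w, (1 : ℝ) / d ≤ 1 + Real.log w := by
  have h := harmonic_le_one_add_log w
  rw [harmonic_eq_sum_Icc] at h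
  push_cast at h
  simpa using h

private theorem SwA_logw {y w : ℕ} (hw1 : 1 ≤ w) (hw : (w : ℝ) ≤ 2 * Real.exp (SwAq y)) : Real.log w ≤ 1 + SwAq y := by
  have hw' : (0 : ℝ) < w := by exact_mod_cast hw1
  have hl2 : Real.log 2 ≤ 1 := by
    have := Real.log_two_lt_d9; linarith only [this]
  have h1 := Real.log_le_log hw' hw
  rw [Real.log_mul (by norm_num) (Real.exp_pos _).ne', Real.log_exp] at h1
  linarith only [hl2, h1]

/-- the range `d ≤ w` -/
private theorem SwA_T2 (j : ℕ) (C E : ℝ) (hC : 0 < C) (hE : 0 < E) (G : ℕ → ℕ → ℝ) (e : ℕ → ℝ)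
    (h : ∀ d y : ℕ, 1 ≤ y → |G d y| ≤ C * y / SwAq y ^ (2 * j)) (y w : ℕ) (hy : 1 ≤ y) (hw1 : 1 ≤ w)
    (hq2 : 2 ≤ SwAq y) (hw : (w : ℝ) ≤ 2 * Real.exp (SwAq y)) (he : ∀ d, 1 ≤ d → d ≤ w → |e d| ≤ E * SwAq y) :
    |∑ d ∈ (Icc 1 y).filter (fun d => ¬ w < d), e d * G d (y / d)|
      ≤ (2 * E * C * 2 ^ (2 * j)) * y * SwAq y ^ 2 / SwAq y ^ (2 * j) := by
  have hy' : (0 : ℝ) < y := by exact_mod_cast hy
  have hw' : (0 : ℝ) < w := by exact_mod_cast hw1
  have hq := pow_pos (SwA_q_pos y) (2 * j)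
  have hq0 := SwA_q_pos y
  have hl2 : Real.log 2 ≤ 1 := by
    have := Real.log_two_lt_d9; linarith only [this]
  have hlw : Real.log w ≤ 1 + SwAq y := SwA_logw hw1 hw
  have hlw0 := SwA_log_nonneg w
  have hlw2 : 1 + Real.log w ≤ 2 * SwAq y := by linarith only [hq2, hlw]
  refine (Finset.abs_sum_le_sum_abs _ _).trans ?_
  have h1 : ∀ d ∈ (Icc 1 y).filter (fun d => ¬ w < d), |e d * G d (y / d)|
      ≤ (E * SwAq y * C * 2 ^ (2 * j) * y / SwAq y ^ (2 * j)) * (1 / d) := by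
    intro d hd
    obtain ⟨hd0, hd3⟩ := Finset.mem_filter.1 hd
    obtain ⟨hd1, hd2⟩ := Finset.mem_Icc.1 hd0
    have hdw : d ≤ w := by omega
    have hd' : (0 : ℝ) < d := by exact_mod_cast hd1
    have hdw' : (d : ℝ) ≤ w := by exact_mod_cast hdw
    have hu1 : 1 ≤ y / d := Nat.div_pos hd2 hd1
    have hqu := pow_pos (SwA_q_pos (y / d)) (2 * j)
    have hld : Real.log d ≤ Real.log w := Real.log_le_log hd' hdw'
    have h2 : |e d| ≤ E * SwAq y := he d hd1 hdw
    have h3 := h d (y / d) hu1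
    have h4 : (y : ℝ) ≤ ((y / d : ℕ) : ℝ) * (2 * d) := by
      have h5 : y < d * (y / d) + d := by
        have := Nat.div_add_mod y d
        have := Nat.mod_lt y hd1
        omega
      have h6 : d ≤ d * (y / d) := Nat.le_mul_of_pos_right d hu1
      have h7 : y ≤ (y / d) * (2 * d) := by
        calc y ≤ d * (y / d) + d * (y / d) := by omega
          _ = (y / d) * (2 * d) := by ring
      exact_mod_cast h7
    have hu' : (0 : ℝ) < ((y / d : ℕ) : ℝ) := by exact_mod_cast hu1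
    have h5 : Real.log y ≤ Real.log ((y / d : ℕ) : ℝ) + (Real.log 2 + Real.log d) := by
      rw [← Real.log_mul (by norm_num) hd'.ne', ← Real.log_mul hu'.ne' (by positivity)]
      exact Real.log_le_log hy' h4
    have h6 : (SwAq y / 2) ^ 4 ≤ SwAq (y / d) ^ 4 := by
      have e1 := SwA_q4 y
      have e2 := SwA_q4 (y / d)
      rw [div_pow, e2]
      have e3 : SwAq y ^ 4 ≥ 8 * SwAq y := by
        have : SwAq y ^ 3 ≥ 2 ^ 3 := pow_le_pow_left₀ (by norm_num) hq2 3
        nlinarith only [this, hq2]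
      have e4 : 1 + Real.log ((y / d : ℕ) : ℝ) ≥ SwAq y ^ 4 - (2 + SwAq y) := by
        rw [e1]; linarith only [hl2, hlw, hld, h5]
      linarith only [hq2, hl2, hlw, hld, h5, e1, e3]
    have h7 : SwAq y / 2 ≤ SwAq (y / d) :=
      le_of_pow_le_pow_left₀ (by norm_num) (SwA_q_pos _).le h6
    have h8 : 1 / SwAq (y / d) ^ (2 * j) ≤ 2 ^ (2 * j) / SwAq y ^ (2 * j) := by
      rw [div_le_div_iff₀ hqu hq]
      have h9 : SwAq y ≤ 2 * SwAq (y / d) := by linarith only [h7]
      calc 1 * SwAq y ^ (2 * j) ≤ (2 * SwAq (y / d)) ^ (2 * j) := by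
            rw [one_mul]; exact pow_le_pow_left₀ hq0.le h9 _
        _ = 2 ^ (2 * j) * SwAq (y / d) ^ (2 * j) := by rw [mul_pow]
    have h11 : ((y / d : ℕ) : ℝ) ≤ y / d := Nat.cast_div_le
    rw [abs_mul]
    calc |e d| * |G d (y / d)|
        ≤ (E * SwAq y) * (C * ((y / d : ℕ) : ℝ) / SwAq (y / d) ^ (2 * j)) :=
          mul_le_mul h2 h3 (abs_nonneg _) (by positivity)
      _ = (E * SwAq y) * (C * ((y / d : ℕ) : ℝ) * (1 / SwAq (y / d) ^ (2 * j))) := by ring
      _ ≤ (E * SwAq y) * (C * (y / d) * (2 ^ (2 * j) / SwAq y ^ (2 * j))) := by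
          apply mul_le_mul_of_nonneg_left _ (by positivity)
          apply mul_le_mul _ h8 (by positivity) (by positivity)
          exact mul_le_mul_of_nonneg_left h11 hC.le
      _ = (E * SwAq y * C * 2 ^ (2 * j) * y / SwAq y ^ (2 * j)) * (1 / d) := by ring
  refine (Finset.sum_le_sum h1).trans ?_
  rw [← Finset.mul_sum]
  have h6 : ∑ d ∈ (Icc 1 y).filter (fun d => ¬ w < d), (1 : ℝ) / d ≤ 2 * SwAq y := by
    refine le_trans (le_trans (Finset.sum_le_sum_of_subset_of_nonneg ?_ fun _ _ _ => by positivity)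
      (SwA_harm w)) hlw2
    intro u hu
    simp only [Finset.mem_filter, Finset.mem_Icc] at hu ⊢
    omega
  have h7 : 0 ≤ E * SwAq y * C * 2 ^ (2 * j) * y / SwAq y ^ (2 * j) := by positivity
  refine (mul_le_mul_of_nonneg_left h6 h7).trans (le_of_eq ?_)
  ring

/-! ### primes in residue classes -/

/-- `c / φ(c)` -/
private noncomputable def SwAk (c : ℕ) : ℝ := (c : ℝ) / c.totient

private theorem SwA_k_nonneg (c : ℕ) : 0 ≤ SwAk c := by unfold SwAk; positivity

private theorem SwA_k_le (c : ℕ) (hc : 1 ≤ c) : SwAk c ≤ c := by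
  have h : (1 : ℝ) ≤ c.totient := by exact_mod_cast Nat.totient_pos.2 hc
  exact div_le_self (Nat.cast_nonneg c) h

private theorem SwA_k_log (c : ℕ) (hc : 1 ≤ c) : SwAk c ≤ 1 + 2 * Real.log c := by
  have h1 := Pool.Agent.H92.EH.le_totient_mul c
  have h2 := Pool.Agent.H92.EH.card_primeFactors_le c
  have hφ : (0 : ℝ) < c.totient := by exact_mod_cast Nat.totient_pos.2 hc
  have h3 : (2 : ℝ) ^ (Nat.log 2 c) ≤ c := by
    exact_mod_cast Nat.pow_log_le_self 2 (by omega)
  have h4 : (Nat.log 2 c : ℝ) * Real.log 2 ≤ Real.log c := by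
    rw [← Real.log_pow]
    exact Real.log_le_log (by positivity) h3
  have h5 : (0.6931471803 : ℝ) < Real.log 2 := Real.log_two_gt_d9
  have h6 : (0 : ℝ) ≤ Nat.log 2 c := Nat.cast_nonneg _
  have h7 : (Nat.log 2 c : ℝ) ≤ 2 * Real.log c := by nlinarith only [h4, h5]
  have h8 : ((c.primeFactors.card : ℕ) : ℝ) ≤ Nat.log 2 c := by exact_mod_cast h2
  unfold SwAk
  rw [div_le_iff₀ hφ]
  nlinarith only [h1, h7, h8]

private theorem SwA_R (k : ℕ) : ∃ C : ℝ, 0 < C ∧ ∀ c : ℕ, 1 ≤ c → ∀ b : ℕ, Nat.Coprime b c → ∀ v : ℕ, 2 ≤ v →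
    |psiA v c b - v / (c.totient : ℝ)| ≤ C * c * v / Real.log v ^ k := by
  obtain ⟨x0, hx0⟩ := Pool.Agent.H91.EHA.psi_ap (k + 1) k
  refine ⟨3 + (1 + Real.log x0) ^ (k + 1), ?_, fun c hc b hb v hv => ?_⟩
  · have := Real.log_natCast_nonneg x0
    positivity
  have hv2 : (2 : ℝ) ≤ v := by exact_mod_cast hv
  have hv0 : (0 : ℝ) < v := by linarith only [hv2]
  have hL2 : (1 / 2 : ℝ) ≤ Real.log v := by
    have h5 : (0.6931471803 : ℝ) < Real.log 2 := Real.log_two_gt_d9
    have h6 := Real.log_le_log (by norm_num : (0 : ℝ) < 2) hv2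
    linarith only [h5, h6]
  have hL0 : 0 < Real.log v := by linarith only [hL2]
  have hLk : 0 < Real.log v ^ k := pow_pos hL0 k
  have hc1 : (1 : ℝ) ≤ c := by exact_mod_cast hc
  have hx00 : 0 ≤ Real.log (x0 : ℝ) := Real.log_natCast_nonneg x0
  have hφ : (1 : ℝ) ≤ c.totient := by exact_mod_cast Nat.totient_pos.2 hc
  have hD : 0 ≤ (1 + Real.log (x0 : ℝ)) ^ (k + 1) := by positivity
  -- the trivial bound
  have htriv : |psiA v c b - v / (c.totient : ℝ)| ≤ v * (1 + Real.log v) := by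
    have hpsi0 : 0 ≤ psiA v c b := sum_nonneg fun _ _ => Pool.Agent.H91.EHA.swk1_Lam_nonneg _
    have hpsi1 : psiA v c b ≤ v * Real.log v := by
      refine le_trans ?_ (Pool.Agent.H91.EHA.swk1_psi_le v)
      exact sum_le_sum_of_subset_of_nonneg (filter_subset _ _) fun _ _ _ => Pool.Agent.H91.EHA.swk1_Lam_nonneg _
    have h1 : (v : ℝ) / c.totient ≤ v := div_le_self hv0.le hφ
    have h2 : 0 ≤ (v : ℝ) / c.totient := by positivity
    have h3 : 0 ≤ (v : ℝ) * Real.log v := by positivity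
    rw [abs_le]
    constructor <;> nlinarith only [hpsi0, hpsi1, h1, hv2, h2]
  rcases lt_or_ge v x0 with hvx | hvx
  · refine htriv.trans ?_
    rw [le_div_iff₀ hLk]
    have h1 : Real.log v ≤ Real.log x0 := Real.log_le_log hv0 (by exact_mod_cast hvx.le)
    have h2 : (1 + Real.log v) * Real.log v ^ k ≤ (1 + Real.log x0) ^ (k + 1) := by
      calc (1 + Real.log v) * Real.log v ^ k ≤ (1 + Real.log v) * (1 + Real.log v) ^ k := by
            apply mul_le_mul_of_nonneg_left _ (by linarith only [hL0])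
            exact pow_le_pow_left₀ hL0.le (by linarith only) k
        _ = (1 + Real.log v) ^ (k + 1) := by ring
        _ ≤ (1 + Real.log x0) ^ (k + 1) := pow_le_pow_left₀ (by linarith only [hL0]) (by linarith only [h1]) _
    calc (v : ℝ) * (1 + Real.log v) * Real.log v ^ k = v * ((1 + Real.log v) * Real.log v ^ k) := by ring
      _ ≤ v * (1 + Real.log x0) ^ (k + 1) := mul_le_mul_of_nonneg_left h2 hv0.le
      _ ≤ (3 + (1 + Real.log x0) ^ (k + 1)) * c * v := by
          have h3 : (1 + Real.log (x0 : ℝ)) ^ (k + 1) ≤ (3 + (1 + Real.log x0) ^ (k + 1)) * c := by nlinarith only [hc1, hD]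
          calc (v : ℝ) * (1 + Real.log x0) ^ (k + 1) ≤ v * ((3 + (1 + Real.log x0) ^ (k + 1)) * c) :=
                mul_le_mul_of_nonneg_left h3 hv0.le
            _ = _ := by ring
  · rcases le_or_gt (c : ℝ) (Real.log v ^ (k + 1)) with hcl | hcl
    · have h1 := hx0 v hvx v le_rfl c hc hcl b hb
      refine h1.trans ?_
      apply div_le_div_of_nonneg_right _ hLk.le
      have h3 : (1 : ℝ) ≤ (3 + (1 + Real.log x0) ^ (k + 1)) * c := by nlinarith only [hc1, hD]
      calc (v : ℝ) = 1 * v := by ring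
        _ ≤ (3 + (1 + Real.log x0) ^ (k + 1)) * c * v := mul_le_mul_of_nonneg_right h3 hv0.le
    · refine htriv.trans ?_
      rw [le_div_iff₀ hLk]
      have h1 : (1 + Real.log v) * Real.log v ^ k ≤ 3 * c := by
        calc (1 + Real.log v) * Real.log v ^ k ≤ (3 * Real.log v) * Real.log v ^ k :=
              mul_le_mul_of_nonneg_right (by linarith only [hL2]) hLk.le
          _ = 3 * Real.log v ^ (k + 1) := by ring
          _ ≤ 3 * c := by linarith only [hcl]
      calc (v : ℝ) * (1 + Real.log v) * Real.log v ^ k = v * ((1 + Real.log v) * Real.log v ^ k) := by ring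
        _ ≤ v * (3 * c) := mul_le_mul_of_nonneg_left h1 hv0.le
        _ = 3 * (c * v) := by ring
        _ ≤ (3 + (1 + Real.log x0) ^ (k + 1)) * (c * v) :=
            mul_le_mul_of_nonneg_right (by linarith only [hD]) (by positivity)
        _ = (3 + (1 + Real.log x0) ^ (k + 1)) * c * v := by ring

private theorem SwA_count (c : ℕ) (hc : 1 ≤ c) (b v : ℕ) :
    |(((Icc 1 v).filter (fun n => n ≡ b [MOD c])).card : ℝ) - v / c| ≤ 1 := by
  have h0 : Icc 1 v = Ioc 0 v := by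
    ext n; simp only [Finset.mem_Icc, Finset.mem_Ioc]; omega
  have hc0 : (0 : ℚ) < c := by exact_mod_cast hc
  have h1 := Nat.Ioc_filter_modEq_card 0 v (r := c) hc b
  rw [← h0] at h1
  set t : ℤ := ⌊((v : ℚ) - b) / c⌋ - ⌊(((0 : ℕ) : ℚ) - b) / c⌋ with ht
  have h2 : (((Icc 1 v).filter (fun n => n ≡ b [MOD c])).card : ℤ) = max t 0 := h1
  have h3 : |(t : ℚ) - v / c| ≤ 1 := by
    have a1 := Int.floor_le (((v : ℚ) - b) / c)
    have a2 := Int.lt_floor_add_one (((v : ℚ) - b) / c)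
    have a3 := Int.floor_le ((((0 : ℕ) : ℚ) - b) / c)
    have a4 := Int.lt_floor_add_one ((((0 : ℕ) : ℚ) - b) / c)
    have a5 : ((v : ℚ) - b) / c - (((0 : ℕ) : ℚ) - b) / c = v / c := by
      field_simp
      push_cast
      ring
    rw [ht]
    push_cast
    push_cast at a3 a4 a5
    rw [abs_le]
    constructor <;> linarith only [a2, a3, a5, a1, a4]
  have h4 : |((max t 0 : ℤ) : ℚ) - v / c| ≤ 1 := by
    have hvc : (0 : ℚ) ≤ v / c := by positivity
    rw [abs_le] at h3 ⊢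
    rcases le_total t 0 with h | h
    · rw [max_eq_right h]
      have h5 : (t : ℚ) ≤ 0 := by exact_mod_cast h
      constructor
      · push_cast; linarith only [h3, h5]
      · push_cast; linarith only [hvc]
    · rw [max_eq_left h]
      exact h3
  rw [← h2] at h4
  have h5 : |(((((Icc 1 v).filter (fun n => n ≡ b [MOD c])).card : ℤ) : ℚ) - v / c : ℚ)| ≤ 1 := h4
  have h6 : ((|(((((Icc 1 v).filter (fun n => n ≡ b [MOD c])).card : ℤ) : ℚ) - v / c : ℚ)| : ℚ) : ℝ) ≤ ((1 : ℚ) : ℝ) := by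
    exact_mod_cast h5
  push_cast at h6
  exact h6

/-- the range `d > w` -/
private theorem SwA_T3 (j : ℕ) : ∃ D : ℝ, 0 < D ∧ ∀ c : ℕ, 1 ≤ c → ∀ a : ZMod c, IsUnit a → ∀ y w : ℕ, 1 ≤ y → 2 ≤ SwAq y →
    Real.exp (SwAq y) ≤ w →
    |∑ m ∈ Icc 1 y, mu m * ∑ d ∈ Ioc w (y / m), (if (d : ZMod c) * (m : ZMod c) = a then Lam d - SwAk c else 0)|
      ≤ D * c * y / SwAq y ^ (2 * j) := by
  obtain ⟨C, hC, hpnt⟩ := SwA_R (2 * j + 4)
  refine ⟨2 * (C + ((2 * j + 4).factorial : ℝ)), by positivity, fun c hc a ha y w hy hq2 hw => ?_⟩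
  have : NeZero c := ⟨by omega⟩
  set C' : ℝ := C + ((2 * j + 4).factorial : ℝ) with hC'
  have hC'0 : 0 < C' := by positivity
  have hc1 : (1 : ℝ) ≤ c := by exact_mod_cast hc
  have hy' : (0 : ℝ) < y := by exact_mod_cast hy
  have hq0 := SwA_q_pos y
  have hqc := pow_pos hq0 (2 * j + 4)
  have hw' : (0 : ℝ) < w := lt_of_lt_of_le (Real.exp_pos _) hw
  have hlw : SwAq y ≤ Real.log w := by
    have := Real.log_le_log (Real.exp_pos _) hw
    rwa [Real.log_exp] at this
  have hw2 : 2 ≤ w := by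
    have h1 : (2 : ℝ) ≤ w := by
      have := Real.add_one_le_exp (SwAq y)
      linarith only [hq2, hw, this]
    exact_mod_cast h1
  have hR : ∀ b : ℕ, Nat.Coprime b c → ∀ v : ℕ, w ≤ v →
      |∑ n ∈ (Icc 1 v).filter (fun n => n ≡ b [MOD c]), (Lam n - SwAk c)| ≤ C' * c * v / SwAq y ^ (2 * j + 4) := by
    intro b hb v hv
    have hv' : (w : ℝ) ≤ v := by exact_mod_cast hv
    have hv0 : (0 : ℝ) < v := lt_of_lt_of_le hw' hv'
    have h1 := hpnt c hc b hb v (by omega)
    have h2 : SwAq y ≤ Real.log v := hlw.trans (Real.log_le_log hw' hv')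
    have h3 : C * c * v / Real.log v ^ (2 * j + 4) ≤ C * c * v / SwAq y ^ (2 * j + 4) :=
      div_le_div_of_nonneg_left (by positivity) hqc (pow_le_pow_left₀ hq0.le h2 _)
    have h4 := SwA_count c hc b v
    have hk0 := SwA_k_nonneg c
    have hk1 := SwA_k_le c hc
    have h5 : ∑ n ∈ (Icc 1 v).filter (fun n => n ≡ b [MOD c]), (Lam n - SwAk c)
        = (psiA v c b - v / (c.totient : ℝ))
          - SwAk c * ((((Icc 1 v).filter (fun n => n ≡ b [MOD c])).card : ℝ) - v / c) := by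
      have hc0 : (c : ℝ) ≠ 0 := by positivity
      have h6 : SwAk c * ((v : ℝ) / c) = v / (c.totient : ℝ) := by
        unfold SwAk
        field_simp
      rw [Finset.sum_sub_distrib, Finset.sum_const, nsmul_eq_mul, mul_sub, h6]
      unfold psiA
      ring
    rw [h5]
    have h7 : |SwAk c * ((((Icc 1 v).filter (fun n => n ≡ b [MOD c])).card : ℝ) - v / c)| ≤ c := by
      rw [abs_mul, abs_of_nonneg hk0]
      calc SwAk c * |(((Icc 1 v).filter (fun n => n ≡ b [MOD c])).card : ℝ) - v / c| ≤ c * 1 :=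
            mul_le_mul hk1 h4 (abs_nonneg _) (by positivity)
        _ = c := mul_one _
    have h8 : (c : ℝ) ≤ ((2 * j + 4).factorial : ℝ) * c * v / SwAq y ^ (2 * j + 4) := by
      rw [le_div_iff₀ hqc]
      have h9 := Real.pow_div_factorial_le_exp (SwAq y) hq0.le (2 * j + 4)
      have hfac : (0 : ℝ) < ((2 * j + 4).factorial : ℝ) := by positivity
      rw [div_le_iff₀ hfac] at h9
      have h10 : Real.exp (SwAq y) ≤ v := hw.trans hv'
      have h11 : SwAq y ^ (2 * j + 4) ≤ v * ((2 * j + 4).factorial : ℝ) :=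
        h9.trans (mul_le_mul_of_nonneg_right h10 hfac.le)
      calc (c : ℝ) * SwAq y ^ (2 * j + 4) ≤ c * (v * ((2 * j + 4).factorial : ℝ)) :=
            mul_le_mul_of_nonneg_left h11 (by positivity)
        _ = ((2 * j + 4).factorial : ℝ) * c * v := by ring
    refine (abs_sub _ _).trans ?_
    calc |psiA v c b - v / (c.totient : ℝ)|
          + |SwAk c * ((((Icc 1 v).filter (fun n => n ≡ b [MOD c])).card : ℝ) - v / c)|
        ≤ C * c * v / SwAq y ^ (2 * j + 4) + ((2 * j + 4).factorial : ℝ) * c * v / SwAq y ^ (2 * j + 4) := by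
          linarith only [h1, h3, h7, h8]
      _ = C' * c * v / SwAq y ^ (2 * j + 4) := by rw [hC']; ring
  have hin : ∀ m ∈ Icc 1 y, |mu m * ∑ d ∈ Ioc w (y / m), (if (d : ZMod c) * (m : ZMod c) = a then Lam d - SwAk c else 0)|
      ≤ (2 * C' * c * y / SwAq y ^ (2 * j + 4)) * (1 / m) := by
    intro m hm
    obtain ⟨hm1, hm2⟩ := Finset.mem_Icc.1 hm
    have hm' : (0 : ℝ) < m := by exact_mod_cast hm1
    have h11 : ((y / m : ℕ) : ℝ) ≤ y / m := Nat.cast_div_le
    have hmain : |∑ d ∈ Ioc w (y / m), (if (d : ZMod c) * (m : ZMod c) = a then Lam d - SwAk c else 0)|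
        ≤ (2 * C' * c * y / SwAq y ^ (2 * j + 4)) * (1 / m) := by
      rcases Nat.lt_or_ge (y / m) w with hlt | hge
      · rw [Finset.Ioc_eq_empty (by omega), Finset.sum_empty, abs_zero]
        positivity
      by_cases hmu : IsUnit (m : ZMod c)
      · set v := y / m with hv
        set b : ZMod c := (m : ZMod c)⁻¹ * a with hb
        have hbu : IsUnit b := by
          refine IsUnit.mul ?_ ha
          obtain ⟨u, hu⟩ := hmu
          rw [← hu, ZMod.inv_coe_unit]
          exact u⁻¹.isUnit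
        have hbv : ((b.val : ℕ) : ZMod c) = b := ZMod.natCast_zmod_val b
        have hbc : Nat.Coprime b.val c := by
          rw [← ZMod.isUnit_iff_coprime, hbv]
          exact hbu
        have hiff : ∀ d : ℕ, ((d : ZMod c) * (m : ZMod c) = a) ↔ d ≡ b.val [MOD c] := by
          intro d
          have h1 := ZMod.mul_inv_of_unit _ hmu
          rw [← ZMod.natCast_eq_natCast_iff, hbv]
          constructor
          · intro h
            rw [hb, ← h, mul_comm (d : ZMod c), ← mul_assoc, mul_comm (m : ZMod c)⁻¹, h1, one_mul]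
          · intro h
            rw [h, hb, mul_comm, ← mul_assoc, h1, one_mul]
        have e1 : ∑ d ∈ Ioc w v, (if (d : ZMod c) * (m : ZMod c) = a then Lam d - SwAk c else 0)
            = (∑ n ∈ (Icc 1 v).filter (fun n => n ≡ b.val [MOD c]), (Lam n - SwAk c))
              - ∑ n ∈ (Icc 1 w).filter (fun n => n ≡ b.val [MOD c]), (Lam n - SwAk c) := by
          simp only [hiff]
          rw [Finset.sum_filter, Finset.sum_filter]
          have e2 : Icc 1 v = Icc 1 w ∪ Ioc w v := by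
            ext n; simp only [Finset.mem_union, Finset.mem_Icc, Finset.mem_Ioc]; omega
          have e3 : Disjoint (Icc 1 w) (Ioc w v) := by
            rw [Finset.disjoint_left]
            intro n; simp only [Finset.mem_Icc, Finset.mem_Ioc]; omega
          rw [e2, Finset.sum_union e3]
          ring
        rw [e1]
        have h1 := hR b.val hbc v hge
        have h2 := hR b.val hbc w le_rfl
        have hwv : (w : ℝ) ≤ v := by exact_mod_cast hge
        have h3 : C' * c * w / SwAq y ^ (2 * j + 4) ≤ C' * c * v / SwAq y ^ (2 * j + 4) :=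
          div_le_div_of_nonneg_right (mul_le_mul_of_nonneg_left hwv (by positivity)) hqc.le
        have h4 : C' * c * v / SwAq y ^ (2 * j + 4) ≤ C' * c * (y / m) / SwAq y ^ (2 * j + 4) :=
          div_le_div_of_nonneg_right (mul_le_mul_of_nonneg_left h11 (by positivity)) hqc.le
        refine (abs_sub _ _).trans ?_
        calc |∑ n ∈ (Icc 1 v).filter (fun n => n ≡ b.val [MOD c]), (Lam n - SwAk c)|
              + |∑ n ∈ (Icc 1 w).filter (fun n => n ≡ b.val [MOD c]), (Lam n - SwAk c)|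
            ≤ C' * c * (y / m) / SwAq y ^ (2 * j + 4) + C' * c * (y / m) / SwAq y ^ (2 * j + 4) := by
              linarith only [h1, h2, h3, h4]
          _ = (2 * C' * c * y / SwAq y ^ (2 * j + 4)) * (1 / m) := by ring
      · have h1 : ∑ d ∈ Ioc w (y / m), (if (d : ZMod c) * (m : ZMod c) = a then Lam d - SwAk c else 0) = 0 := by
          refine Finset.sum_eq_zero fun d _ => ?_
          rw [if_neg]
          intro h
          apply hmu
          rw [← h] at ha
          exact isUnit_of_mul_isUnit_right ha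
        rw [h1, abs_zero]
        positivity
    rw [abs_mul]
    calc |mu m| * |∑ d ∈ Ioc w (y / m), (if (d : ZMod c) * (m : ZMod c) = a then Lam d - SwAk c else 0)|
        ≤ 1 * |∑ d ∈ Ioc w (y / m), (if (d : ZMod c) * (m : ZMod c) = a then Lam d - SwAk c else 0)| :=
          mul_le_mul_of_nonneg_right (mu_abs_le m) (abs_nonneg _)
      _ ≤ _ := by rw [one_mul]; exact hmain
  refine (Finset.abs_sum_le_sum_abs _ _).trans ((Finset.sum_le_sum hin).trans ?_)
  rw [← Finset.mul_sum]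
  have h7 : 0 ≤ 2 * C' * c * y / SwAq y ^ (2 * j + 4) := by positivity
  refine (mul_le_mul_of_nonneg_left (SwA_harm y) h7).trans (le_of_eq ?_)
  rw [← SwA_q4 y, pow_add]
  have hq := pow_pos hq0 (2 * j)
  field_simp

private theorem SwA_step (j : ℕ)
    (h : ∃ C : ℝ, 0 < C ∧ ∀ c : ℕ, 1 ≤ c → ∀ a : ZMod c, IsUnit a → ∀ y : ℕ, 1 ≤ y →
      |SwAP c a 1 y| ≤ C * c * y / SwAq y ^ (2 * j)) :
    ∃ C : ℝ, 0 < C ∧ ∀ c : ℕ, 1 ≤ c → ∀ a : ZMod c, IsUnit a → ∀ y : ℕ, 1 ≤ y →
      |SwAP c a 1 y| ≤ C * c * y / SwAq y ^ (2 * (j + 1)) := by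
  obtain ⟨C, hC, hA⟩ := h
  obtain ⟨K1, hK1, hT1⟩ := SwA_T1 j
  obtain ⟨D3, hD3, hT3⟩ := SwA_T3 j
  obtain ⟨K, hK, hkey⟩ := SwA_key (2 * j) (1 / 2) (by norm_num)
  set E : ℝ := 4 * j + 7 with hE
  have hE0 : 0 < E := by positivity
  set D : ℝ := K1 * C + 2 * E * C * 2 ^ (2 * j) + D3 + E * K with hD
  have hD0 : 0 < D := by positivity
  refine ⟨2 * D + 2 ^ (2 * (j + 1)) + 1, by positivity, fun c hc a ha y hy => ?_⟩
  have hc1 : (1 : ℝ) ≤ c := by exact_mod_cast hc
  have hy' : (0 : ℝ) < y := by exact_mod_cast hy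
  have hy1 : (1 : ℝ) ≤ y := by exact_mod_cast hy
  have hq0 := SwA_q_pos y
  have hq1' := SwA_q_one y
  have hqj := pow_pos hq0 (2 * j)
  have hqj1 := pow_pos hq0 (2 * (j + 1))
  have h22 : (0 : ℝ) < 2 ^ (2 * (j + 1)) := by positivity
  have hcy : (0 : ℝ) < c * y := by positivity
  rcases le_or_gt (SwAq y) 2 with hq2 | hq2
  · refine (SwA_P_abs c a 1 y).trans ?_
    rw [le_div_iff₀ hqj1]
    have h1 : SwAq y ^ (2 * (j + 1)) ≤ 2 ^ (2 * (j + 1)) := pow_le_pow_left₀ hq0.le hq2 _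
    calc (y : ℝ) * SwAq y ^ (2 * (j + 1)) ≤ y * 2 ^ (2 * (j + 1)) :=
          mul_le_mul_of_nonneg_left h1 hy'.le
      _ = 2 ^ (2 * (j + 1)) * (1 * y) := by ring
      _ ≤ 2 ^ (2 * (j + 1)) * (c * y) :=
          mul_le_mul_of_nonneg_left (mul_le_mul_of_nonneg_right hc1 hy'.le) h22.le
      _ ≤ (2 * D + 2 ^ (2 * (j + 1)) + 1) * (c * y) :=
          mul_le_mul_of_nonneg_right (by linarith only [hD0]) hcy.le
      _ = (2 * D + 2 ^ (2 * (j + 1)) + 1) * c * y := by ring
  rcases le_or_gt (SwAq y ^ (2 * (j + 1))) c with hcq | hcq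
  · refine (SwA_P_abs c a 1 y).trans ?_
    rw [le_div_iff₀ hqj1]
    calc (y : ℝ) * SwAq y ^ (2 * (j + 1)) ≤ y * c := mul_le_mul_of_nonneg_left hcq hy'.le
      _ = 1 * (c * y) := by ring
      _ ≤ (2 * D + 2 ^ (2 * (j + 1)) + 1) * (c * y) :=
          mul_le_mul_of_nonneg_right (by linarith only [hD0, h22]) hcy.le
      _ = (2 * D + 2 ^ (2 * (j + 1)) + 1) * c * y := by ring
  -- `κ` is small
  have hlogq : Real.log (SwAq y) ≤ SwAq y := by
    have := Real.log_le_sub_one_of_pos hq0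
    linarith
  have hk : SwAk c ≤ (4 * j + 5) * SwAq y := by
    have h1 := SwA_k_log c hc
    have h2 : Real.log c ≤ (2 * (j + 1) : ℕ) * Real.log (SwAq y) := by
      rw [← Real.log_pow]
      exact Real.log_le_log (by positivity) hcq.le
    push_cast at h2
    have hj0 : (0 : ℝ) ≤ j := Nat.cast_nonneg j
    have h3 : (2 * ((j : ℝ) + 1)) * Real.log (SwAq y) ≤ (2 * ((j : ℝ) + 1)) * SwAq y :=
      mul_le_mul_of_nonneg_left hlogq (by positivity)
    nlinarith only [hq2, h1, h2, h3]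
  have hk0 := SwA_k_nonneg c
  have hCc : 0 < C * c := by positivity
  -- the induction hypothesis for all `d`
  have hG : ∀ d u : ℕ, 1 ≤ u → |SwAP c a d u| ≤ (C * c) * u / SwAq u ^ (2 * j) := by
    intro d u hu
    have hqu := pow_pos (SwA_q_pos u) (2 * j)
    rcases SwA_transfer ha d u with h0 | ⟨b, hb, hb2⟩
    · rw [h0, abs_zero]
      positivity
    · rw [hb2]
      exact hA c hc b hb u hu
  set w : ℕ := ⌈Real.exp (SwAq y)⌉₊ with hw
  have hw1 : Real.exp (SwAq y) ≤ w := Nat.le_ceil _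
  have hw2 : (w : ℝ) ≤ 2 * Real.exp (SwAq y) := by
    have h1 := Nat.ceil_lt_add_one (Real.exp_pos (SwAq y)).le
    have h2 := Real.one_le_exp hq0.le
    linarith only [h1, h2]
  have hw3 : 1 ≤ w := by
    have : (0 : ℝ) < w := lt_of_lt_of_le (Real.exp_pos _) hw1
    exact_mod_cast this
  set f : ℕ → ℝ := fun n => if (n : ZMod c) = a then mu n else 0 with hf
  have t1 := hT1 f (C * c) hCc (fun u hu => by
    have := hG 1 u hu
    rw [SwA_P_one] at this
    exact this) y hy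
  have he : ∀ d, 1 ≤ d → d ≤ w → |Lam d - SwAk c| ≤ E * SwAq y := by
    intro d hd1 hd2
    have hL0 : 0 ≤ Lam d := ArithmeticFunction.vonMangoldt_nonneg
    have hL1 : Lam d ≤ Real.log d := ArithmeticFunction.vonMangoldt_le_log
    have hd' : (0 : ℝ) < d := by exact_mod_cast hd1
    have hld : Real.log d ≤ Real.log w := Real.log_le_log hd' (by exact_mod_cast hd2)
    have hlw := SwA_logw hw3 hw2
    rw [abs_le]
    constructor
    · rw [hE]; nlinarith only [hq2, hk, hL0]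
    · rw [hE]; nlinarith only [hq2, hk, hk0, hL1, hld, hlw, mul_nonneg (Nat.cast_nonneg j : (0 : ℝ) ≤ j) hq0.le]
  have t2 := SwA_T2 j (C * c) E hCc hE0 (SwAP c a) (fun d => Lam d - SwAk c) hG y w hy hw3 hq2.le hw2 he
  have t3 := hT3 c hc a ha y w hy hq2.le hw1
  rw [← SwA_inter c a y w (fun d => Lam d - SwAk c)] at t3
  have t5 := SwA_sumA c a y
  -- the constant
  have t6 : 1 ≤ K * y / SwAq y ^ (2 * j) := by
    have h1 := hkey 1 y y le_rfl hy hy1 (by simp)
    have h2 : SwAq 1 = 1 := by simp [SwAq]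
    rw [h2, one_pow, mul_one] at h1
    rw [le_div_iff₀ hqj, one_mul]
    refine h1.trans (mul_le_mul_of_nonneg_left ?_ hK.le)
    calc (y : ℝ) ^ (1 / 2 : ℝ) ≤ (y : ℝ) ^ (1 : ℝ) :=
          Real.rpow_le_rpow_of_exponent_le hy1 (by norm_num)
      _ = y := Real.rpow_one _
  -- splitting
  have e1 : ∑ n ∈ Icc 1 y, f n * Real.log n
      = - (∑ d ∈ (Icc 1 y).filter (fun d => w < d), (Lam d - SwAk c) * SwAP c a d (y / d)
          + ∑ d ∈ (Icc 1 y).filter (fun d => ¬ w < d), (Lam d - SwAk c) * SwAP c a d (y / d))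
        - SwAk c * ∑ d ∈ Icc 1 y, SwAP c a d (y / d) := by
    rw [SwA_log, Finset.sum_filter_add_sum_filter_not, Finset.mul_sum, ← Finset.sum_neg_distrib, ← Finset.sum_neg_distrib,
      ← Finset.sum_sub_distrib]
    refine Finset.sum_congr rfl fun d _ => ?_
    ring
  have e2 : SwAP c a 1 y * Real.log y = ∑ n ∈ Icc 1 y, f n * (Real.log y - Real.log n)
      + ∑ n ∈ Icc 1 y, f n * Real.log n := by
    rw [SwA_P_one, Finset.sum_mul, ← Finset.sum_add_distrib]
    refine Finset.sum_congr rfl fun n _ => ?_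
    simp only [hf]
    ring
  set Q : ℝ := c * (y * SwAq y ^ 2 / SwAq y ^ (2 * j)) with hQ
  have hqsq : 1 ≤ SwAq y ^ 2 := one_le_pow₀ (SwA_q_one y)
  have hQ1 : ∀ D : ℝ, 0 < D → D * c * y / SwAq y ^ (2 * j) ≤ D * Q := by
    intro D hD
    have h1 : D * Q = D * c * (y * SwAq y ^ 2) / SwAq y ^ (2 * j) := by rw [hQ]; ring
    rw [h1]
    apply div_le_div_of_nonneg_right _ hqj.le
    have h2 : (y : ℝ) ≤ y * SwAq y ^ 2 := le_mul_of_one_le_right hy'.le hqsq
    exact mul_le_mul_of_nonneg_left h2 (by positivity)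
  have t1' : |∑ n ∈ Icc 1 y, f n * (Real.log y - Real.log n)| ≤ (K1 * C) * Q := by
    refine t1.trans ?_
    have := hQ1 (K1 * C) (by positivity)
    calc K1 * (C * c) * y / SwAq y ^ (2 * j) = K1 * C * c * y / SwAq y ^ (2 * j) := by ring
      _ ≤ _ := this
  have t2' : |∑ d ∈ (Icc 1 y).filter (fun d => ¬ w < d), (Lam d - SwAk c) * SwAP c a d (y / d)|
      ≤ (2 * E * C * 2 ^ (2 * j)) * Q := by
    refine t2.trans (le_of_eq ?_)
    rw [hQ]; ring
  have t5' : |SwAk c * ∑ d ∈ Icc 1 y, SwAP c a d (y / d)| ≤ (E * K) * Q := by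
    rw [abs_mul, abs_of_nonneg hk0]
    have hkE : SwAk c ≤ E * SwAq y ^ 2 := by
      refine hk.trans ?_
      rw [hE]
      have h1 : SwAq y ≤ SwAq y ^ 2 := by nlinarith only [hq0, hq1']
      have hj0 : (0 : ℝ) ≤ j := Nat.cast_nonneg j
      nlinarith only [hq2, h1]
    have hone : (1 : ℝ) ≤ c * (K * y / SwAq y ^ (2 * j)) := by nlinarith only [hc1, t6]
    calc SwAk c * |∑ d ∈ Icc 1 y, SwAP c a d (y / d)| ≤ (E * SwAq y ^ 2) * 1 :=
          mul_le_mul hkE t5 (abs_nonneg _) (by positivity)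
      _ ≤ (E * SwAq y ^ 2) * (c * (K * y / SwAq y ^ (2 * j))) :=
          mul_le_mul_of_nonneg_left hone (by positivity)
      _ = (E * K) * Q := by rw [hQ]; ring
  have hfin : |SwAP c a 1 y * Real.log y| ≤ D * Q := by
    rw [e2, e1]
    have a1 := abs_le.1 t1'
    have a2 := abs_le.1 t2'
    have a3 := abs_le.1 (t3.trans (hQ1 D3 hD3))
    have a5 := abs_le.1 t5'
    have hDQ : D * Q = (K1 * C) * Q + (2 * E * C * 2 ^ (2 * j)) * Q + D3 * Q + (E * K) * Q := by
      rw [hD]; ring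
    rw [abs_le, hDQ]
    constructor
    · linarith only [a1, a2, a3, a5, a1.1, a2.2, a3.2, a5.2]
    · linarith only [a1, a2, a3, a5, a1.2, a2.1, a3.1, a5.1]
  have hlog : SwAq y ^ 4 / 2 ≤ Real.log y := by
    have h1 := SwA_q4 y
    have h2 : (2 : ℝ) ^ 4 ≤ SwAq y ^ 4 := pow_le_pow_left₀ (by norm_num) hq2.le 4
    linarith only [h1, h2]
  have hl0 : 0 ≤ Real.log y := SwA_log_nonneg y
  rw [abs_mul, abs_of_nonneg hl0] at hfin
  have hfin2 : |SwAP c a 1 y| * (SwAq y ^ 4 / 2) ≤ D * Q :=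
    (mul_le_mul_of_nonneg_left hlog (abs_nonneg _)).trans hfin
  have h3 : |SwAP c a 1 y| ≤ 2 * D * c * y / SwAq y ^ (2 * (j + 1)) := by
    rw [le_div_iff₀ hqj1]
    have h4 : |SwAP c a 1 y| * (SwAq y ^ 4 / 2) * SwAq y ^ (2 * j)
        ≤ D * (c * (y * SwAq y ^ 2)) := by
      have h5 := mul_le_mul_of_nonneg_right hfin2 hqj.le
      refine h5.trans (le_of_eq ?_)
      rw [hQ]
      field_simp
    have h6 : SwAq y ^ 4 = SwAq y ^ 2 * SwAq y ^ 2 := by ring
    have h7 : SwAq y ^ (2 * (j + 1)) = SwAq y ^ (2 * j) * SwAq y ^ 2 := by ring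
    rw [h7]
    rw [h6] at h4
    have hq2p : 0 < SwAq y ^ 2 := by positivity
    have h8 : (|SwAP c a 1 y| * (SwAq y ^ (2 * j) * SwAq y ^ 2)) * SwAq y ^ 2
        ≤ (2 * D * c * y) * SwAq y ^ 2 := by
      calc (|SwAP c a 1 y| * (SwAq y ^ (2 * j) * SwAq y ^ 2)) * SwAq y ^ 2
          = 2 * (|SwAP c a 1 y| * (SwAq y ^ 2 * SwAq y ^ 2 / 2) * SwAq y ^ (2 * j)) := by ring
        _ ≤ 2 * (D * (c * (y * SwAq y ^ 2))) := by linarith only [h4]
        _ = (2 * D * c * y) * SwAq y ^ 2 := by ring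
    exact le_of_mul_le_mul_right h8 hq2p
  refine h3.trans ?_
  apply div_le_div_of_nonneg_right _ hqj1.le
  apply mul_le_mul_of_nonneg_right _ hy'.le
  apply mul_le_mul_of_nonneg_right _ (by positivity)
  linarith only [h22]

private theorem SwA_all (j : ℕ) :
    ∃ C : ℝ, 0 < C ∧ ∀ c : ℕ, 1 ≤ c → ∀ a : ZMod c, IsUnit a → ∀ y : ℕ, 1 ≤ y →
      |SwAP c a 1 y| ≤ C * c * y / SwAq y ^ (2 * j) := by
  induction j with
  | zero =>
    refine ⟨1, one_pos, fun c hc a _ y _ => ?_⟩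
    have hc1 : (1 : ℝ) ≤ c := by exact_mod_cast hc
    have h1 := SwA_P_abs c a 1 y
    have hy0 : (0 : ℝ) ≤ y := Nat.cast_nonneg y
    simp only [mul_zero, pow_zero, div_one, one_mul]
    nlinarith only [h1, hc1]
  | succ j ih => exact SwA_step j ih

theorem sw_a (A B : ℕ) : ∃ x0 : ℕ, ∀ x : ℕ, x0 ≤ x → ∀ c r y : ℕ, 1 ≤ c → (c : ℝ) ≤ Real.log x ^ B →
    Nat.Coprime r c → y ≤ x →
    |∑ n ∈ (Icc 1 y).filter (fun n => n % c = r % c), mu n| ≤ x / Real.log x ^ A := by
  obtain ⟨C, hC, hA⟩ := SwA_all (2 * (A + B + 1))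
  obtain ⟨D, hD, hkey⟩ := SwA_key (2 * (2 * (A + B + 1))) (1 / 2) (by norm_num)
  obtain ⟨x0, hx0⟩ := log_ge (max 1 (C * D))
  refine ⟨max 1 x0, fun x hx c r y hc hcB hr hyx => ?_⟩
  have hx1 : 1 ≤ x := (le_max_left _ _).trans hx
  have hL := hx0 x ((le_max_right _ _).trans hx)
  have hL1 : 1 ≤ Real.log x := (le_max_left _ _).trans hL
  have hL2 : C * D ≤ Real.log x := (le_max_right _ _).trans hL
  have hx' : (0 : ℝ) < x := by exact_mod_cast hx1
  have hc0 : (0 : ℝ) < c := by exact_mod_cast hc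
  have hL0 : (0 : ℝ) < Real.log x := by linarith only [hL1]
  rcases Nat.eq_zero_or_pos y with rfl | hy
  · simp only [Finset.Icc_eq_empty (show ¬ (1 ≤ 0) by norm_num), Finset.filter_empty, Finset.sum_empty, abs_zero]
    positivity
  have hy' : (0 : ℝ) < y := by exact_mod_cast hy
  have hyx' : (y : ℝ) ≤ x := by exact_mod_cast hyx
  have hru : IsUnit (r : ZMod c) := (ZMod.isUnit_iff_coprime r c).2 hr
  have h0 : ∑ n ∈ (Icc 1 y).filter (fun n => n % c = r % c), mu n = SwAP c (r : ZMod c) 1 y := by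
    rw [SwA_P_one, Finset.sum_filter]
    refine Finset.sum_congr rfl fun n _ => ?_
    have h1 : (n % c = r % c) ↔ ((n : ZMod c) = (r : ZMod c)) := (ZMod.natCast_eq_natCast_iff n r c).symm
    simp only [h1]
  rw [h0]
  have h1 := hA c hc (r : ZMod c) hru y hy
  refine h1.trans ?_
  have h2 := hkey y x (x / y) hy hx1 (by rw [le_div_iff₀ hy']; linarith only [hyx'])
    (by rw [mul_div_cancel₀ _ hy'.ne'])
  have h3 : ((x : ℝ) / y) ^ (1 / 2 : ℝ) ≤ x / y := by
    have h4 : (1 : ℝ) ≤ x / y := by rw [le_div_iff₀ hy']; linarith only [hyx']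
    calc ((x : ℝ) / y) ^ (1 / 2 : ℝ) ≤ ((x : ℝ) / y) ^ (1 : ℝ) :=
          Real.rpow_le_rpow_of_exponent_le h4 (by norm_num)
      _ = x / y := Real.rpow_one _
  have hqy := pow_pos (SwA_q_pos y) (2 * (2 * (A + B + 1)))
  have hqx := pow_pos (SwA_q_pos x) (2 * (2 * (A + B + 1)))
  have h5 : SwAq x ^ (2 * (2 * (A + B + 1))) ≤ D * SwAq y ^ (2 * (2 * (A + B + 1))) * (x / y) :=
    h2.trans (mul_le_mul_of_nonneg_left h3 (by positivity))
  have h6 : SwAq x ^ (2 * (2 * (A + B + 1))) = (1 + Real.log x) ^ (A + B + 1) := by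
    rw [← SwA_q4 x, ← pow_mul]
    congr 1; ring
  have h7 : C * c * y / SwAq y ^ (2 * (2 * (A + B + 1))) ≤ C * D * c * x / SwAq x ^ (2 * (2 * (A + B + 1))) := by
    rw [div_le_div_iff₀ hqy hqx]
    calc C * c * y * SwAq x ^ (2 * (2 * (A + B + 1)))
        ≤ C * c * y * (D * SwAq y ^ (2 * (2 * (A + B + 1))) * (x / y)) :=
          mul_le_mul_of_nonneg_left h5 (by positivity)
      _ = C * D * c * x * SwAq y ^ (2 * (2 * (A + B + 1))) := by field_simp
  refine h7.trans ?_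
  rw [h6, div_le_div_iff₀ (by positivity) (by positivity)]
  calc C * D * c * x * Real.log x ^ A ≤ Real.log x * Real.log x ^ B * x * Real.log x ^ A := by
        apply mul_le_mul_of_nonneg_right _ (by positivity)
        apply mul_le_mul_of_nonneg_right _ hx'.le
        exact mul_le_mul hL2 hcB hc0.le hL0.le
    _ = x * Real.log x ^ (A + B + 1) := by ring
    _ ≤ x * (1 + Real.log x) ^ (A + B + 1) := by
        apply mul_le_mul_of_nonneg_left _ hx'.le
        exact pow_le_pow_left₀ (by linarith only [hL1]) (by linarith only) _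

end Pool.Agent.H43.LM
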